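import Pool.Agent.W670.ML.Defs2
import Pool.Agent.W571.ML.EX

set_option autoImplicit false

namespace Pool.Agent.W100.ML2

open Pool.Agent.W670.ML

theorem exk : S_EXK := by
  intro K Ω _ _ _ _ _ N M hN hM
  exact Pool.Agent.W571.ML.ex_gen K Ω N M hN hM

end Pool.Agent.W100.ML2

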